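import Pool.Agent.H83.SK.PHP.Expl

/-!
# Site percolation, box-crossing regime: blocking, decay, half circuits
-/

open MeasureTheory ProbabilityTheory unitInterval

namespace Pool.Agent.H83.SK

open Pool.Agent.H26.HP

open Pool.Agent.H89.Perc

variable {ω ω' : Config} {D X S : Set Vert} {R n : ℕ} {q : I} {c : ℝ}

lemma hreg_le_one (h : RSWreg c n q) (hn : 1 ≤ n) : c ≤ 1 :=
  ((h 1 le_rfl hn).1).trans Pr_le_one

/-- The complement has probability at least `c⁴`. -/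
theorem hnoCross_reg (hc : 0 < c) (h : RSWreg c n q) {s r : ℕ} (hr : 2 * s ≤ r) (hr1 : 1 ≤ r)
    (hrn : r ≤ n) : c ^ 4 ≤ Pr q (ArmBox 0 s r)ᶜ := by
  rw [Pr_compl (localOn_armBox 0 s r)]
  linarith [armBox_reg_le hc h hr hr1 hrn]

/-- Polynomial decay of annulus crossings in the box-crossing regime. -/
theorem hdecay (c : ℝ) (hc : 0 < c) : ∃ C κ : ℝ, 0 < C ∧ 0 < κ ∧ κ ≤ 1 ∧
    ∀ (n : ℕ) (q : I), RSWreg c n q → ∀ s r : ℕ, 1 ≤ s → s ≤ r → r ≤ n →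
      Pr q (ArmBox 0 s r) ≤ C * ((s : ℝ) / r) ^ κ := by
  obtain ⟨C, a, hC, ha, ha4, h⟩ := armBox_decay0 hc
  exact ⟨C, a, hC, ha, by linarith, fun n q hreg s r hs hsr hrn => h n s r q hreg hs hsr hrn⟩

theorem hHC_ge (hc : 0 < c) {s : ℕ} (hs : 1 ≤ s) (h : RSWreg c s q) : c ^ 3 ≤ Pr q (HC s) := by
  classical
  have k2 : c ≤ Pr q {ω | HCross ω (-(2 * (s : ℤ))) (2 * s) s (2 * s)} :=
    reg_hcross h hs le_rfl (by omega) (by omega) (by omega)
  have k1 : c ≤ Pr q {ω | VCross ω (-(2 * (s : ℤ))) (-s) 0 (2 * s)} :=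
    reg_vcross h hs le_rfl (by omega) (by omega) (by omega)
  have k3 : c ≤ Pr q {ω | VCross ω (s : ℤ) (2 * s) 0 (2 * s)} :=
    reg_vcross h hs le_rfl (by omega) (by omega) (by omega)
  have h12 := fkg (p := q) (localOn_vcross (-(2 * (s : ℤ))) (-s) 0 (2 * s))
    (localOn_hcross (-(2 * (s : ℤ))) (2 * s) s (2 * s)) (incr_vcross _ _ _ _) (incr_hcross _ _ _ _)
  have h123 := fkg (p := q) ((localOn_vcross (-(2 * (s : ℤ))) (-s) 0 (2 * s)).inter'
    (localOn_hcross (-(2 * (s : ℤ))) (2 * s) s (2 * s))) (localOn_vcross (s : ℤ) (2 * s) 0 (2 * s))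
    ((incr_vcross _ _ _ _).inter (incr_hcross _ _ _ _)) (incr_vcross _ _ _ _)
  have h12' := (mul_le_mul k1 k2 hc.le Pr_nonneg).trans h12
  have h' := (mul_le_mul h12' k3 hc.le Pr_nonneg).trans h123
  have e : c ^ 3 = c * c * c := by ring
  rw [e]
  exact h'

end Pool.Agent.H83.SK
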