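import Pool.Agent.H26.HP.One
import Pool.Agent.H83.SK.PHP.Reg

/-!
# Half plane, one arm with a free side: the exponent is one

`E1 R z`: the cluster of `(z, 0)` in the half ball of radius `R` reaches distance `R` and does not
touch the base to the right of `(z, 0)`.  Its probability is at most `C / R`.
-/

open MeasureTheory ProbabilityTheory unitInterval

namespace Pool.Agent.H83.SK

open Pool.Agent.H26.HP

open Pool.Agent.H89.Perc

variable {ω ω' : Config} {D X S : Set Vert} {R n : ℕ} {q : I} {c : ℝ}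

lemma Pr_E1 (R : ℕ) (z : ℤ) : Pr q (E1 R z) = Pr q (E1 R 0) := by
  rw [← E1_shift R z, Pr_comp (localOn_E1 R) (isAut_shift _)]

/-- The main bound at scale `9 n`. -/
theorem E1_scale (hc : 0 < c) (hn : 1 ≤ n) (hreg : RSWreg c (8 * n) q) :
    (2 * (n : ℝ) + 1) * (c ^ 4 * Pr q (E1 (9 * n) 0)) ≤ 1 := by
  classical
  set D : Set Vert := hb 0 (8 * n) with hD
  have hDR : D ⊆ ball 0 (8 * n) := hb_subset_ball (by simp)
  -- the events
  set A : ℤ → Set Config := fun z => {ω | (∃ w ∈ sphere 0 (8 * n), Conn ω D (z, 0) w) ∧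
    ∀ x : ℤ, z < x → x ≤ n → ¬ Conn ω D (z, 0) (x, 0)} with hA
  set B : ℤ → Set Config := fun z => {ω | (∃ w ∈ sphere 0 (8 * n), Conn ω D (z, 0) w) ∧
    ∀ x : ℤ, z < x → x ≤ n → ¬ ∃ w ∈ sphere 0 (8 * n), Conn ω D (x, 0) w} with hB
  have h0 : ∀ z : ℤ, -(n : ℤ) ≤ z → z ≤ n → c ^ 4 * Pr q (A z) ≤ Pr q (B z) := by
    intro z hz1 hz2
    set Φ : Set Vert → Prop := fun S => (∃ w ∈ sphere 0 (8 * n), w ∈ S) ∧
      ∀ x : ℤ, z < x → x ≤ n → ((x, 0) : Vert) ∉ S with hΦ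
    refine explore (X := {(z, 0)}) (A' := fun S _ => {ω | Φ S})
      (G := fun S U => {ω | Φ S ∧ ∀ x : ℤ, z < x → x ≤ n →
        ¬ ∃ w ∈ sphere 0 (8 * n), Conn ω (D \ U) (x, 0) w}) hDR (by positivity) ?_ ?_ ?_ ?_ ?_
    · rintro ω ⟨⟨w, hw, h1⟩, h2⟩
      refine ⟨⟨w, hw, (z, 0), rfl, h1⟩, ?_⟩
      rintro x h3 h4 ⟨_, rfl, h5⟩
      exact h2 x h3 h4 h5
    · intro S U ω ω' _ h
      exact h
    · rintro S U ω ω' hω ⟨h1, h2⟩
      refine ⟨h1, fun x h3 h4 => ?_⟩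
      rintro ⟨w, hw, h5⟩
      refine h2 x h3 h4 ⟨w, hw, ?_⟩
      exact localOn_conn_in (Set.sdiff_subset.trans hDR) _ _ ω' ω (fun e he => (hω e he).symm) h5
    · intro S U _
      by_cases hS : Φ S
      · have e1 : {ω : Config | Φ S} = Set.univ := by
          ext ω; simp [hS]
        rw [e1, Pr_univ, mul_one]
        refine (hnoCross_reg hc hreg (s := n) (r := 8 * n) (by omega) (by omega) le_rfl).trans
          (Pr_mono ?_)
        intro ω hω
        refine ⟨hS, fun x h3 h4 => ?_⟩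
        rintro ⟨w, hw, h5⟩
        apply hω
        refine ⟨(x, 0), ?_, w, hw, h5.mono_set (Set.sdiff_subset.trans hDR)⟩
        simp only [mem_ball, Prod.fst_zero, Prod.snd_zero]
        omega
      · have e1 : {ω : Config | Φ S} = ∅ := by
          ext ω; simp [hS]
        rw [e1]
        rw [Pr_empty, mul_zero]
        exact Pr_nonneg
    · rintro ω ⟨⟨⟨w, hw, _, rfl, h1⟩, h2⟩, h3⟩
      refine ⟨⟨w, hw, h1⟩, fun x h4 h5 => ?_⟩
      rintro ⟨w', hw', h6⟩
      refine h3 x h4 h5 ⟨w', hw', conn_offU (h2 x h4 h5) ?_ h6⟩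
      rintro rfl
      have k := hw'.2
      simp only [Prod.fst_zero, Prod.snd_zero] at k
      push_cast at k
      omega
  -- disjointness
  have hsum : ∑ z ∈ Finset.Icc (-(n : ℤ)) n, Pr q (B z) ≤ 1 := by
    have hd : Set.PairwiseDisjoint (↑(Finset.Icc (-(n : ℤ)) n)) B := by
      intro z hz z' hz' hne
      rw [Finset.coe_Icc, Set.mem_Icc] at hz hz'
      rw [Function.onFun, Set.disjoint_left]
      rintro ω ⟨h1, h2⟩ ⟨h3, h4⟩
      rcases lt_or_gt_of_ne hne with h | h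
      · exact h2 z' h hz'.2 h3
      · exact h4 z h hz.2 h1
    have hm : ∀ z ∈ Finset.Icc (-(n : ℤ)) n, LocalOn (eIn (8 * n) D) (B z) := by
      intro z _
      have : LocalOn (eIn (8 * n) D) (B z) := by
        rintro ω ω' hω ⟨⟨w, hw, h1⟩, h2⟩
        refine ⟨⟨w, hw, localOn_conn_in hDR _ _ ω ω' hω h1⟩, fun x h3 h4 => ?_⟩
        rintro ⟨w', hw', h6⟩
        exact h2 x h3 h4 ⟨w', hw', localOn_conn_in hDR _ _ ω' ω (fun e he => (hω e he).symm) h6⟩
      exact this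
    rw [← Pr_biUnion (p := q) _ B _ hm fun i hi j hj hij =>
      hd (Finset.mem_coe.2 hi) (Finset.mem_coe.2 hj) hij]
    exact Pr_le_one
  -- comparison
  have hle : ∀ z ∈ Finset.Icc (-(n : ℤ)) n, c ^ 4 * Pr q (E1 (9 * n) 0) ≤ Pr q (B z) := by
    intro z hz
    rw [Finset.mem_Icc] at hz
    refine le_trans ?_ (h0 z hz.1 hz.2)
    refine mul_le_mul_of_nonneg_left ?_ (by positivity)
    rw [← Pr_E1 (9 * n) z]
    refine Pr_mono ?_
    rintro ω ⟨⟨w, hw, h1⟩, h2⟩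
    have habs : |z - 0| + ((8 * n : ℕ) : ℤ) ≤ ((9 * n : ℕ) : ℤ) := by
      push_cast
      rcases abs_cases (z - 0) with ⟨h4, h5⟩ | ⟨h4, h5⟩ <;> rw [h4] <;> omega
    refine ⟨?_, fun x h3 h4 h5 => ?_⟩
    · refine reach_restrict habs ?_ hw h1
      simp only [mem_ball]
      push_cast
      omega
    · exact h2 x h3 (by push_cast; omega) (h5.mono_set (hb_subset_hb habs))
  calc (2 * (n : ℝ) + 1) * (c ^ 4 * Pr q (E1 (9 * n) 0))
      = ∑ _z ∈ Finset.Icc (-(n : ℤ)) n, c ^ 4 * Pr q (E1 (9 * n) 0) := by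
        rw [Finset.sum_const, Int.card_Icc, nsmul_eq_mul]
        congr 1
        have : ((n : ℤ) + 1 - -(n : ℤ)).toNat = 2 * n + 1 := by omega
        rw [this]
        push_cast
        ring
    _ ≤ ∑ z ∈ Finset.Icc (-(n : ℤ)) n, Pr q (B z) := Finset.sum_le_sum hle
    _ ≤ 1 := hsum

/-- **(H1)** The one-arm event with a free side has probability at most `C / R`. -/
theorem E1_le (hc : 0 < c) (hR : 1 ≤ R) (hreg : RSWreg c R q) (z : ℤ) :
    Pr q (E1 R z) ≤ 9 / (c ^ 4 * R) := by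
  rw [Pr_E1]
  have hc1 : c ≤ 1 := hreg_le_one hreg hR
  have hc4 : c ^ 4 ≤ 1 := pow_le_one₀ hc.le hc1
  have hc40 : 0 < c ^ 4 := by positivity
  have hR0 : (0 : ℝ) < R := by exact_mod_cast hR
  rw [le_div_iff₀ (by positivity)]
  by_cases h9 : R < 9
  · have h1 : (R : ℝ) ≤ 9 := by exact_mod_cast h9.le
    calc Pr q (E1 R 0) * (c ^ 4 * R) ≤ 1 * (1 * 9) := by
          refine mul_le_mul Pr_le_one (mul_le_mul hc4 h1 hR0.le zero_le_one) (by positivity)
            zero_le_one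
      _ = 9 := by norm_num
  · set n := R / 9 with hn
    have hn1 : 1 ≤ n := by omega
    have hnR : 9 * n ≤ R := by omega
    have h1 := E1_scale (q := q) hc hn1 (rswreg_mono hreg (by omega))
    have h2 : Pr q (E1 R 0) ≤ Pr q (E1 (9 * n) 0) := Pr_mono (E1_anti hnR 0)
    have h3 : (R : ℝ) ≤ 9 * (2 * (n : ℝ) + 1) := by
      have : R ≤ 9 * (2 * n + 1) := by omega
      exact_mod_cast this
    calc Pr q (E1 R 0) * (c ^ 4 * R) ≤ Pr q (E1 (9 * n) 0) * (c ^ 4 * (9 * (2 * (n : ℝ) + 1))) := by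
          refine mul_le_mul h2 (mul_le_mul_of_nonneg_left h3 hc40.le) (by positivity) Pr_nonneg
      _ = 9 * ((2 * (n : ℝ) + 1) * (c ^ 4 * Pr q (E1 (9 * n) 0))) := by ring
      _ ≤ 9 * 1 := by linarith
      _ = 9 := by norm_num

end Pool.Agent.H83.SK
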