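import Pool.Agent.H26.HP.Three
import Pool.Agent.H83.SK.PHP.Two

/-!
# Half plane: two disjoint crossing clusters

`U s r`: two different clusters of the half ball of radius `r` join `ball 0 s` to distance `r`.
Its probability is at most `C (s / r) ^ (1 + κ)`.
-/

open MeasureTheory ProbabilityTheory unitInterval

namespace Pool.Agent.H83.SK

open Pool.Agent.H26.HP

open Pool.Agent.H89.Perc hiding rho

variable {ω ω' : Config} {D X S T : Set Vert} {R n r s : ℕ} {q : I} {c : ℝ}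

/-! ### Reflection -/

lemma Pr_isClus_rho : Pr q (IsClus (hb 0 r) (rho '' S)) = Pr q (IsClus (hb 0 r) S) := by
  rw [← isClus_rho, Pr_comp (localOn_isClus (R := r) (hb_subset_ball (by simp)))
    (isAut_reflX 0)]

theorem EN_left (hc : 0 < c) (hs : 1 ≤ s) (hr : 32 * s ≤ r) (hreg : RSWreg c r q) :
    EN q (hb 0 r) (FL s r) ≤ 594 / c ^ 11 * (s / r) := by
  classical
  have h1 : ∀ T : Finset Vert, (↑(T.image rho) : Set Vert) = rho '' ↑T := fun T => by simp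
  have h2 : ∀ T : Finset Vert, (T.image rho).image rho = T := by
    intro T
    rw [Finset.image_image]
    have : rho ∘ rho = id := by funext v; exact rho_rho v
    rw [this, Finset.image_id]
  have h3 : ∀ T : Finset Vert, T ⊆ bF r → T.image rho ⊆ bF r := by
    intro T hT v hv
    rw [Finset.mem_image] at hv
    obtain ⟨w, hw, rfl⟩ := hv
    rw [mem_bF, rho_mem_ball, ← mem_bF]
    exact hT hw
  have h4 : EN q (hb 0 r) (FL s r) = EN q (hb 0 r) (FR s r) := by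
    rw [EN, EN]
    refine Finset.sum_nbij' (fun T => T.image rho) (fun T => T.image rho) ?_ ?_ ?_ ?_ ?_
    · intro T hT
      rw [mem_FL] at hT
      rw [mem_FR, h1]
      exact ⟨h3 T hT.1, PhiL_iff.1 hT.2⟩
    · intro T hT
      rw [mem_FR] at hT
      rw [mem_FL, PhiL_iff, ← h1, h2]
      exact ⟨h3 T hT.1, hT.2⟩
    · intro T _
      exact h2 T
    · intro T _
      exact h2 T
    · intro T _
      rw [h1, Pr_isClus_rho]
  rw [h4]
  exact EN_right hc hs hr hreg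

/-! ### Planarity -/

/-! ### Two clusters -/

/-- There is a crossing off the neighbourhood of `S`. -/
def GG' (s r : ℕ) (S : Set Vert) : Set Config :=
  {ω | ∃ u ∈ ball 0 s, ∃ w ∈ sphere 0 r, Conn ω (hb 0 r \ nb (hb 0 r) S) u w}

lemma GG_imp {w : Config} {T : Set Vert} (hsr : s < r) (h : sit w ∈ IsClus (hb 0 r) T)
    (h1 : ∃ v ∈ T, v ∈ ball 0 s) (h2 : ∃ x ∈ T, x ∈ sphere 0 r) (hG : sit w ∈ GG s r T) :
    sit w ∈ GG' s r T := by
  obtain ⟨u, hu, x, hx, hc⟩ := hG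
  obtain ⟨v, hv, hvb⟩ := h1
  obtain ⟨y, hy, hys⟩ := h2
  refine ⟨u, hu, x, hx, ?_⟩
  exact isClus_offU h hv hy (ne_of_sphere hsr hvb hys) hc.mem_left.2 (ne_of_sphere hsr hu hx)
    (hc.mono_set Set.sdiff_subset)

lemma U_cases' {w : Config} (hr : 1 ≤ r) (hsr : s < r) (h : sit w ∈ U s r) :
    (∃ T ∈ FR s r, sit w ∈ IsClus (hb 0 r) ↑T ∧ sit w ∈ GG' s r ↑T) ∨
    (∃ T ∈ FL s r, sit w ∈ IsClus (hb 0 r) ↑T ∧ sit w ∈ GG' s r ↑T) := by
  rcases U_cases hr h with ⟨T, hT, h1, h2⟩ | ⟨T, hT, h1, h2⟩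
  · have h3 := (mem_FR.1 hT).2
    exact Or.inl ⟨T, hT, h1, GG_imp hsr h1 h3.1 h3.2.1 h2⟩
  · have h3 := (mem_FL.1 hT).2
    exact Or.inr ⟨T, hT, h1, GG_imp hsr h1 h3.1 h3.2.1 h2⟩

/-- **(H3)** Two disjoint clusters crossing a half annulus. -/
theorem U_le (c : ℝ) (hc : 0 < c) : ∃ C κ : ℝ, 0 < C ∧ 0 < κ ∧ κ ≤ 1 ∧
    ∀ (n : ℕ) (q : I), RSWreg c n q → ∀ s r : ℕ, 1 ≤ s → s ≤ r → r ≤ n →
      Pr q (U s r) ≤ C * ((s : ℝ) / r) ^ (1 + κ) := by
  obtain ⟨C, κ, hC, hκ, hκ1, hdec⟩ := hdecay c hc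
  refine ⟨max (1188 / c ^ 11 * C) (32 ^ (1 + κ)), κ, by positivity, hκ, hκ1, ?_⟩
  intro n q hreg s r hs hsr hrn
  have hr1 : 1 ≤ r := hs.trans hsr
  have hs0 : (0 : ℝ) < s := by exact_mod_cast hs
  have hr0 : (0 : ℝ) < r := by exact_mod_cast hr1
  have hregr : RSWreg c r q := rswreg_mono hreg hrn
  by_cases h32 : 32 * s ≤ r
  · set δ : ℝ := Pr q (ArmBox 0 s r) with hδ
    have hδ1 : δ ≤ C * ((s : ℝ) / r) ^ κ := hdec r q hregr s r hs hsr le_rfl
    have hDR : hb 0 r ⊆ ball 0 r := hb_subset_ball (by simp)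
    have lG : ∀ S, LocalOn (eIn r (hb 0 r \ nb (hb 0 r) S)) (GG' s r S) := by
      rintro S ω ω' hω ⟨u, hu, w, hw, h2⟩
      exact ⟨u, hu, w, hw, localOn_conn_in (Set.sdiff_subset.trans hDR) _ _ ω ω' hω h2⟩
    have hG : ∀ S, Pr q (GG' s r S) ≤ δ := by
      intro S
      refine Pr_mono ?_
      rintro ω ⟨u, hu, w, hw, h2⟩
      exact ⟨u, hu, w, hw, h2.mono_set (Set.sdiff_subset.trans hDR)⟩
    have h1 : Pr q {ω | ∃ T ∈ FR s r, ω ∈ IsClus (hb 0 r) ↑T ∧ ω ∈ GG' s r ↑T} ≤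
        EN q (hb 0 r) (FR s r) * δ :=
      le_EN hDR lG (fun T _ => hG T) fun ω h => h
    have h2 : Pr q {ω | ∃ T ∈ FL s r, ω ∈ IsClus (hb 0 r) ↑T ∧ ω ∈ GG' s r ↑T} ≤
        EN q (hb 0 r) (FL s r) * δ :=
      le_EN hDR lG (fun T _ => hG T) fun ω h => h
    have h3 : Pr q (U s r) ≤ EN q (hb 0 r) (FR s r) * δ + EN q (hb 0 r) (FL s r) * δ := by
      refine le_trans (?_ : _ ≤ Pr q ({ω | ∃ T ∈ FR s r, ω ∈ IsClus (hb 0 r) ↑T ∧
        ω ∈ GG' s r ↑T} ∪ {ω | ∃ T ∈ FL s r, ω ∈ IsClus (hb 0 r) ↑T ∧ ω ∈ GG' s r ↑T}))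
        (Pr_union_le.trans (add_le_add h1 h2))
      refine Pool.Agent.H89.Perc.Pr_mono ?_
      intro w hw
      exact U_cases' hr1 (by omega) hw
    have h4 := EN_right hc hs h32 hregr
    have h5 := EN_left hc hs h32 hregr
    have hδ0 : 0 ≤ δ := Pr_nonneg
    have h6 : Pr q (U s r) ≤ 1188 / c ^ 11 * (s / r) * δ := by
      calc Pr q (U s r) ≤ _ := h3
        _ ≤ 594 / c ^ 11 * (s / r) * δ + 594 / c ^ 11 * (s / r) * δ :=
          add_le_add (mul_le_mul_of_nonneg_right h4 hδ0) (mul_le_mul_of_nonneg_right h5 hδ0)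
        _ = _ := by ring
    calc Pr q (U s r) ≤ 1188 / c ^ 11 * (s / r) * δ := h6
      _ ≤ 1188 / c ^ 11 * (s / r) * (C * ((s : ℝ) / r) ^ κ) :=
          mul_le_mul_of_nonneg_left hδ1 (by positivity)
      _ = (1188 / c ^ 11 * C) * ((s : ℝ) / r) ^ (1 + κ) := by
          rw [Real.rpow_add (by positivity), Real.rpow_one]
          ring
      _ ≤ _ := mul_le_mul_of_nonneg_right (le_max_left _ _) (by positivity)
  · have h1 : (1 : ℝ) ≤ 32 * ((s : ℝ) / r) := by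
      rw [← mul_div_assoc, le_div_iff₀ hr0, one_mul]
      have : r ≤ 32 * s := by omega
      exact_mod_cast this
    calc Pr q (U s r) ≤ 1 := Pr_le_one
      _ ≤ (32 * ((s : ℝ) / r)) ^ (1 + κ) := Real.one_le_rpow h1 (by linarith)
      _ = 32 ^ (1 + κ) * ((s : ℝ) / r) ^ (1 + κ) := Real.mul_rpow (by norm_num) (by positivity)
      _ ≤ _ := mul_le_mul_of_nonneg_right (le_max_right _ _) (by positivity)

end Pool.Agent.H83.SK
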