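import Pool.Agent.H26.HP.Frame
import Pool.Agent.H83.SK.PHP.Three
import Pool.Agent.H83.SK.Iface

/-!
# The two-cluster event in the four half planes at an arbitrary point
-/

open MeasureTheory ProbabilityTheory unitInterval

namespace Pool.Agent.H83.SK

open Pool.Agent.H26.HP

open Pool.Agent.H89.Perc

open Pool.Agent.H29.Sep (LocTwo)

variable {ω ω' : Config} {D X S T : Set Vert} {R n r s : ℕ} {q : I} {c : ℝ}

/-- Invariance under a symmetry of the lattice. -/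
theorem Pr_locTwo_map {φ : Edge → Edge} (hφ : IsAut φ) {f g : Vert → Vert}
    (hfg : ∀ w, f (g w) = w) (_hgf : ∀ w, g (f w) = w)
    (hconn : ∀ (ω : Config) (S : Set Vert) (u v : Vert), Conn (fun e => ω (φ e)) S u v ↔
      Conn ω {w | g w ∈ S} (f u) (f v))
    (hball : ∀ (z w : Vert) (t : ℕ), f w ∈ ball (f z) t ↔ w ∈ ball z t)
    (hsph : ∀ (z w : Vert) (t : ℕ), f w ∈ sphere (f z) t ↔ w ∈ sphere z t)
    (D : Set Vert) (z : Vert) (t ρ : ℕ) :
    Pr q (LocTwo {w | g w ∈ D} (f z) t ρ) = Pr q (LocTwo D z t ρ) := by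
  obtain ⟨E, hE⟩ := localOn_locTwo D z t ρ
  rw [← Pr_comp hE hφ]
  congr 1
  have hset : {w | g w ∈ D ∩ ball z ρ} = {w | g w ∈ D} ∩ ball (f z) ρ := by
    ext w
    simp only [Set.mem_ofPred_eq, Set.mem_inter_iff]
    rw [← hball z (g w) ρ, hfg]
  ext ω
  simp only [LocTwo, Set.mem_ofPred_eq]
  constructor
  · rintro ⟨u, hu, u', hu', v, hv, v', hv', h1, h2, h3⟩
    refine ⟨g u, ?_, g u', ?_, g v, ?_, g v', ?_, ?_, ?_, ?_⟩
    · rwa [← hball, hfg]
    · rwa [← hball, hfg]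
    · rwa [← hsph, hfg]
    · rwa [← hsph, hfg]
    · rw [hconn, hset, hfg, hfg]; exact h1
    · rw [hconn, hset, hfg, hfg]; exact h2
    · rw [hconn, hset, hfg, hfg]; exact h3
  · rintro ⟨u, hu, u', hu', v, hv, v', hv', h1, h2, h3⟩
    rw [hconn, hset] at h1 h2 h3
    exact ⟨f u, (hball _ _ _).2 hu, f u', (hball _ _ _).2 hu', f v, (hsph _ _ _).2 hv, f v',
      (hsph _ _ _).2 hv', h1, h2, h3⟩

theorem Pr_locTwo_shift (a : Vert) (D : Set Vert) (z : Vert) (t ρ : ℕ) :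
    Pr q (LocTwo {w | (w.1 - a.1, w.2 - a.2) ∈ D} (z.1 + a.1, z.2 + a.2) t ρ) =
      Pr q (LocTwo D z t ρ) := by
  refine Pr_locTwo_map (φ := shiftE a) (isAut_shift a) (f := fun w => (w.1 + a.1, w.2 + a.2))
    (g := fun w => (w.1 - a.1, w.2 - a.2)) ?_ ?_ ?_ ?_ ?_ D z t ρ
  · intro w; ext <;> simp
  · intro w; ext <;> simp
  · intro ω S u v
    exact conn_shift a S u v
  · intro z w t
    simp only [mem_ball]
    omega
  · intro z w t
    simp only [sphere, Set.mem_ofPred_eq, mem_ball]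
    omega

theorem Pr_locTwo_reflX (D : Set Vert) (z : Vert) (t ρ : ℕ) :
    Pr q (LocTwo {w | (0 - w.1, w.2) ∈ D} (0 - z.1, z.2) t ρ) =
      Pr q (LocTwo D z t ρ) := by
  refine Pr_locTwo_map (φ := reflX 0) (isAut_reflX 0) (f := fun w => (0 - w.1, w.2))
    (g := fun w => (0 - w.1, w.2)) ?_ ?_ ?_ ?_ ?_ D z t ρ
  · intro w; ext <;> simp
  · intro w; ext <;> simp
  · intro ω S u v
    exact conn_reflX 0 S u v
  · intro z w t
    simp only [mem_ball]
    omega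
  · intro z w t
    simp only [sphere, Set.mem_ofPred_eq, mem_ball]
    omega

theorem Pr_locTwo_reflY (D : Set Vert) (z : Vert) (t ρ : ℕ) :
    Pr q (LocTwo {w | (w.1, 0 - w.2) ∈ D} (z.1, 0 - z.2) t ρ) =
      Pr q (LocTwo D z t ρ) := by
  refine Pr_locTwo_map (φ := reflY 0) (isAut_reflY 0) (f := fun w => (w.1, 0 - w.2))
    (g := fun w => (w.1, 0 - w.2)) ?_ ?_ ?_ ?_ ?_ D z t ρ
  · intro w; ext <;> simp
  · intro w; ext <;> simp
  · intro ω S u v
    exact conn_reflY 0 S u v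
  · intro z w t
    simp only [mem_ball]
    omega
  · intro z w t
    simp only [sphere, Set.mem_ofPred_eq, mem_ball]
    omega

theorem Pr_locTwo_swap (D : Set Vert) (z : Vert) (t ρ : ℕ) :
    Pr q (LocTwo {w | (w.2, w.1) ∈ D} (z.2, z.1) t ρ) = Pr q (LocTwo D z t ρ) := by
  refine Pr_locTwo_map (φ := swapE) isAut_swap (f := fun w => (w.2, w.1))
    (g := fun w => (w.2, w.1)) ?_ ?_ ?_ ?_ ?_ D z t ρ
  · intro w; rfl
  · intro w; rfl
  · intro ω S u v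
    exact conn_swap S u v
  · intro z w t
    simp only [mem_ball]
    omega
  · intro z w t
    simp only [sphere, Set.mem_ofPred_eq, mem_ball]
    omega

theorem Pr_locTwo_up (z : Vert) (t ρ : ℕ) :
    Pr q (LocTwo {v | z.2 ≤ v.2} z t ρ) = Pr q (U t ρ) := by
  have h := Pr_locTwo_shift (q := q) z up 0 t ρ
  rw [locTwo_up_zero] at h
  rw [← h]
  congr 1
  have e1 : {w : Vert | (w.1 - z.1, w.2 - z.2) ∈ up} = {v | z.2 ≤ v.2} := by
    ext w
    simp only [up, Set.mem_ofPred_eq, sub_nonneg]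
  have e2 : ((0 : Vert).1 + z.1, (0 : Vert).2 + z.2) = z := by ext <;> simp
  rw [e1, e2]

theorem Pr_locTwo_down (z : Vert) (t ρ : ℕ) :
    Pr q (LocTwo {v | v.2 ≤ z.2} z t ρ) = Pr q (U t ρ) := by
  have h := Pr_locTwo_reflY (q := q) {v | (0 - z.2) ≤ v.2} (z.1, 0 - z.2) t ρ
  rw [Pr_locTwo_up (z.1, 0 - z.2)] at h
  rw [← h]
  congr 1
  have e1 : {w : Vert | (w.1, 0 - w.2) ∈ {v : Vert | (0 - z.2) ≤ v.2}} = {v | v.2 ≤ z.2} := by
    ext w
    simp only [Set.mem_ofPred_eq]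
    omega
  have e2 : ((z.1, 0 - z.2).1, 0 - (z.1, 0 - z.2).2) = z := by ext <;> simp
  rw [e1, e2]

theorem Pr_locTwo_right (z : Vert) (t ρ : ℕ) :
    Pr q (LocTwo {v | z.1 ≤ v.1} z t ρ) = Pr q (U t ρ) := by
  have h := Pr_locTwo_swap (q := q) {v | z.1 ≤ v.2} (z.2, z.1) t ρ
  rw [Pr_locTwo_up (z.2, z.1)] at h
  rw [← h]
  congr 1

theorem Pr_locTwo_left (z : Vert) (t ρ : ℕ) :
    Pr q (LocTwo {v | v.1 ≤ z.1} z t ρ) = Pr q (U t ρ) := by
  have h := Pr_locTwo_swap (q := q) {v | v.2 ≤ z.1} (z.2, z.1) t ρ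
  rw [Pr_locTwo_down (z.2, z.1)] at h
  rw [← h]
  congr 1

end Pool.Agent.H83.SK
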