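import Pool.Agent.H26.HP.Bad
import Pool.Agent.H83.SK.PHP.Frame

/-!
# Two clusters near a boundary point: the inner and the outer side of a square

Final output of the half-plane part: `badIn : BadIn` and `badOut : BadOut`.
-/

open MeasureTheory ProbabilityTheory unitInterval

namespace Pool.Agent.H83.SK

open Pool.Agent.H26.HP

open Pool.Agent.H89.Perc

open Pool.Agent.H29.Sep (LocTwo)

variable {ω ω' : Config} {D X S T : Set Vert} {R n r s t : ℕ} {q : I} {c : ℝ}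

/-- From flat boundary points to all boundary points. -/
theorem bad_of_flat (c : ℝ) (hc : 0 < c) : ∃ C κ : ℝ, 0 < C ∧ 0 < κ ∧
    ∀ (n t ρ r : ℕ) (q : I) (D : Set Vert), 1 ≤ t → t ≤ ρ → 2 * ρ ≤ r → r ≤ n → RSWreg c n q →
      (∀ (z : Vert) (s ρ' : ℕ), Flat z ρ' r → Pr q (LocTwo D z s ρ') ≤ Pr q (U s ρ')) →
      Pr q {ω | ∃ z ∈ sphere 0 r, ω ∈ LocTwo D z t ρ} ≤
        C * ((r : ℝ) / ρ) * ((t : ℝ) / ρ) ^ κ := by
  classical
  obtain ⟨C1, κ1, hC1, hκ1, hκ11, hU⟩ := U_le c hc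
  obtain ⟨C2, κ2, hC2, hκ2, hκ21, hA⟩ := hdecay c hc
  set a : ℝ := κ1 / (2 * (1 + κ1)) with ha
  have ha0 : 0 < a := by positivity
  have ha1 : a ≤ 1 := by
    rw [ha, div_le_one (by positivity)]
    linarith
  set κ : ℝ := min (κ1 / 2) (a * κ2) with hκ
  have hκ0 : 0 < κ := lt_min (by positivity) (by positivity)
  have hκa : κ ≤ a := (min_le_right _ _).trans (mul_le_of_le_one_right ha0.le hκ21)
  refine ⟨40 + 20 * C1 + 80 * C2, κ, by positivity, hκ0, ?_⟩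
  intro n t ρ r q D ht htρ hρr hrn hreg hflat
  have ht0 : (0 : ℝ) < t := by exact_mod_cast ht
  have hρ0 : (0 : ℝ) < ρ := by exact_mod_cast (lt_of_lt_of_le ht htρ)
  have hr0 : (0 : ℝ) < r := by
    have : 0 < r := by omega
    exact_mod_cast this
  set θ : ℝ := (t : ℝ) / ρ with hθ
  have hθ0 : 0 < θ := by positivity
  have hθ1 : θ ≤ 1 := by
    rw [hθ, div_le_one hρ0]; exact_mod_cast htρ
  have hrρ : 1 ≤ (r : ℝ) / ρ := by
    rw [le_div_iff₀ hρ0, one_mul]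
    have : ρ ≤ r := by omega
    exact_mod_cast this
  set x : ℝ := θ ^ a with hx
  have hx0 : 0 < x := by positivity
  have hxθ : θ ≤ x := by
    calc θ = θ ^ (1 : ℝ) := (Real.rpow_one θ).symm
      _ ≤ θ ^ a := Real.rpow_le_rpow_of_exponent_ge hθ0 hθ1 ha1
  have hθκ : 0 < θ ^ κ := by positivity
  have hxκ : x ≤ θ ^ κ := Real.rpow_le_rpow_of_exponent_ge hθ0 hθ1 hκa
  have hmain : ∀ y : ℝ, 0 ≤ y → y ≤ θ ^ κ → ∀ A : ℝ, 0 ≤ A → A * y ≤ A * (r / ρ) * θ ^ κ := by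
    intro y hy0 hy A hA
    calc A * y ≤ A * θ ^ κ := mul_le_mul_of_nonneg_left hy hA
      _ = A * 1 * θ ^ κ := by ring
      _ ≤ A * (r / ρ) * θ ^ κ :=
        mul_le_mul_of_nonneg_right (mul_le_mul_of_nonneg_left hrρ hA) hθκ.le
  by_cases hx40 : 1 / 40 < x
  · calc Pr q {ω | ∃ z ∈ sphere 0 r, ω ∈ LocTwo D z t ρ} ≤ 1 := Pr_le_one
      _ ≤ 40 * x := by linarith
      _ ≤ 40 * (r / ρ) * θ ^ κ := hmain x hx0.le hxκ 40 (by norm_num)
      _ ≤ (40 + 20 * C1 + 80 * C2) * (r / ρ) * θ ^ κ := by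
        refine mul_le_mul_of_nonneg_right (mul_le_mul_of_nonneg_right ?_ (by positivity)) hθκ.le
        linarith
  push Not at hx40
  have hρx : (t : ℝ) ≤ ρ * x := by
    calc (t : ℝ) = ρ * θ := by rw [hθ]; field_simp
      _ ≤ ρ * x := mul_le_mul_of_nonneg_left hxθ hρ0.le
  have ht1 : (1 : ℝ) ≤ t := by exact_mod_cast ht
  set ρ₁ : ℕ := ⌈8 * (ρ * x)⌉₊ with hρ₁
  have e1 : 8 * (ρ * x) ≤ ρ₁ := Nat.le_ceil _
  have e2 : (ρ₁ : ℝ) ≤ 9 * (ρ * x) := by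
    have := Nat.ceil_lt_add_one (show 0 ≤ 8 * (ρ * x) by positivity)
    linarith
  have e3 : (ρ * x) ≤ ρ / 40 := by
    calc ρ * x ≤ ρ * (1 / 40) := mul_le_mul_of_nonneg_left hx40 hρ0.le
      _ = ρ / 40 := by ring
  have n1 : 8 * t ≤ ρ₁ := by
    have : (8 * t : ℝ) ≤ ρ₁ := by linarith
    exact_mod_cast this
  have n2 : 2 * ρ₁ + t ≤ ρ := by
    have : (2 * ρ₁ + t : ℝ) ≤ ρ := by linarith
    exact_mod_cast this
  set ρ₃ : ℕ := ρ₁ - t - 1 with hρ₃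
  have e4 : 2 * (ρ * x) ≤ ρ₃ := by
    have h1 : (ρ₃ : ℝ) = ρ₁ - t - 1 := by
      have : ρ₃ + t + 1 = ρ₁ := by omega
      have h : (ρ₃ : ℝ) + t + 1 = ρ₁ := by exact_mod_cast this
      linarith
    rw [h1]
    linarith
  have hρ₃0 : (0 : ℝ) < ρ₃ := by linarith
  -- the covering
  have hcov : Pr q {ω | ∃ z ∈ sphere 0 r, ω ∈ LocTwo D z t ρ} ≤
      Pr q (⋃ k ∈ (Finset.univ : Finset (Bool × Bool)), ArmBox (corner r k) (ρ₁ + t) (ρ - ρ₁)) +
      Pr q (⋃ p ∈ ((Finset.univ : Finset (Bool × Bool)) ×ˢ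
        Finset.Icc (-((r / t : ℕ) + 1 : ℤ)) ((r / t : ℕ) + 1)).filter
          (fun p => Flat (cand t r p) ρ₃ r), LocTwo D (cand t r p) (2 * t) ρ₃) := by
    refine (Pr_mono ?_).trans Pr_union_le
    intro ω hω
    rcases bad_cover ht (by omega) n2 hρr hω with ⟨k, hk⟩ | ⟨p, hp, hpf, hpω⟩
    · left
      simp only [Set.mem_iUnion]
      exact ⟨k, Finset.mem_univ _, hk⟩
    · right
      simp only [Set.mem_iUnion]
      exact ⟨p, Finset.mem_filter.2 ⟨hp, hpf⟩, hpω⟩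
  -- corners
  have hcor : Pr q (⋃ k ∈ (Finset.univ : Finset (Bool × Bool)),
      ArmBox (corner r k) (ρ₁ + t) (ρ - ρ₁)) ≤ 80 * C2 * (r / ρ) * θ ^ κ := by
    have h1 : ∀ k : Bool × Bool, Pr q (ArmBox (corner r k) (ρ₁ + t) (ρ - ρ₁)) ≤
        20 * C2 * θ ^ κ := by
      intro k
      rw [Pr_armBox]
      have h2 := hA n q hreg (ρ₁ + t) (ρ - ρ₁) (by omega) (by omega) (by omega)
      refine h2.trans ?_
      have h3 : ((ρ₁ + t : ℕ) : ℝ) / ((ρ - ρ₁ : ℕ) : ℝ) ≤ 20 * x := by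
        have h4 : ((ρ - ρ₁ : ℕ) : ℝ) = ρ - ρ₁ := by
          rw [Nat.cast_sub (by omega)]
        rw [h4, div_le_iff₀ (by linarith)]
        push_cast
        have h5 : (ρ : ℝ) / 2 ≤ ρ - ρ₁ := by linarith
        calc (ρ₁ : ℝ) + t ≤ 10 * (ρ * x) := by linarith
          _ = 20 * x * (ρ / 2) := by ring
          _ ≤ 20 * x * (ρ - ρ₁) := mul_le_mul_of_nonneg_left h5 (by positivity)
      have h6 : (((ρ₁ + t : ℕ) : ℝ) / ((ρ - ρ₁ : ℕ) : ℝ)) ^ κ2 ≤ (20 * x) ^ κ2 :=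
        Real.rpow_le_rpow (by positivity) h3 hκ2.le
      have h7 : (20 * x) ^ κ2 ≤ 20 * θ ^ κ := by
        rw [Real.mul_rpow (by norm_num) hx0.le]
        have h8 : (20 : ℝ) ^ κ2 ≤ 20 := by
          calc (20 : ℝ) ^ κ2 ≤ 20 ^ (1 : ℝ) := Real.rpow_le_rpow_of_exponent_le (by norm_num) hκ21
            _ = 20 := Real.rpow_one _
        have h9 : x ^ κ2 ≤ θ ^ κ := by
          rw [hx, ← Real.rpow_mul hθ0.le]
          exact Real.rpow_le_rpow_of_exponent_ge hθ0 hθ1 (min_le_right _ _)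
        exact mul_le_mul h8 h9 (by positivity) (by norm_num)
      calc C2 * (((ρ₁ + t : ℕ) : ℝ) / ((ρ - ρ₁ : ℕ) : ℝ)) ^ κ2 ≤ C2 * (20 * θ ^ κ) :=
            mul_le_mul_of_nonneg_left (h6.trans h7) hC2.le
        _ = 20 * C2 * θ ^ κ := by ring
    calc _ ≤ ∑ k ∈ (Finset.univ : Finset (Bool × Bool)),
          Pr q (ArmBox (corner r k) (ρ₁ + t) (ρ - ρ₁)) := Pr_biUnion_le _ _
      _ ≤ ∑ _k ∈ (Finset.univ : Finset (Bool × Bool)), 20 * C2 * θ ^ κ :=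
          Finset.sum_le_sum fun k _ => h1 k
      _ = (80 * C2) * θ ^ κ := by
          rw [Finset.sum_const, Finset.card_univ]
          simp only [Fintype.card_prod, Fintype.card_bool, nsmul_eq_mul]
          push_cast
          ring
      _ ≤ 80 * C2 * (r / ρ) * θ ^ κ := hmain (θ ^ κ) hθκ.le le_rfl (80 * C2) (by positivity)
  -- flat points
  have hfl : Pr q (⋃ p ∈ ((Finset.univ : Finset (Bool × Bool)) ×ˢ
        Finset.Icc (-((r / t : ℕ) + 1 : ℤ)) ((r / t : ℕ) + 1)).filter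
          (fun p => Flat (cand t r p) ρ₃ r), LocTwo D (cand t r p) (2 * t) ρ₃) ≤
      20 * C1 * (r / ρ) * θ ^ κ := by
    have h1 : ∀ p ∈ ((Finset.univ : Finset (Bool × Bool)) ×ˢ
        Finset.Icc (-((r / t : ℕ) + 1 : ℤ)) ((r / t : ℕ) + 1)).filter
          (fun p => Flat (cand t r p) ρ₃ r), Pr q (LocTwo D (cand t r p) (2 * t) ρ₃) ≤
        C1 * (θ * θ ^ (κ1 / 2)) := by
      intro p hp
      rw [Finset.mem_filter] at hp
      refine (hflat _ _ _ hp.2).trans ((hU n q hreg (2 * t) ρ₃ (by omega) (by omega)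
        (by omega)).trans ?_)
      refine mul_le_mul_of_nonneg_left ?_ hC1.le
      have h2 : ((2 * t : ℕ) : ℝ) / ρ₃ ≤ θ / x := by
        rw [div_le_div_iff₀ hρ₃0 hx0]
        push_cast
        calc 2 * (t : ℝ) * x = θ * (2 * (ρ * x)) := by rw [hθ]; field_simp
          _ ≤ θ * ρ₃ := mul_le_mul_of_nonneg_left e4 hθ0.le
      calc (((2 * t : ℕ) : ℝ) / ρ₃) ^ (1 + κ1) ≤ (θ / x) ^ (1 + κ1) :=
            Real.rpow_le_rpow (by positivity) h2 (by positivity)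
        _ = θ * θ ^ (κ1 / 2) := by
            rw [Real.div_rpow hθ0.le hx0.le, hx, ← Real.rpow_mul hθ0.le,
              ← Real.rpow_sub hθ0]
            have e : 1 + κ1 - a * (1 + κ1) = 1 + κ1 / 2 := by
              rw [ha]; field_simp; ring
            rw [e, Real.rpow_add hθ0, Real.rpow_one]
    calc _ ≤ ∑ p ∈ ((Finset.univ : Finset (Bool × Bool)) ×ˢ
        Finset.Icc (-((r / t : ℕ) + 1 : ℤ)) ((r / t : ℕ) + 1)).filter
          (fun p => Flat (cand t r p) ρ₃ r), Pr q (LocTwo D (cand t r p) (2 * t) ρ₃) :=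
          Pr_biUnion_le _ _
      _ ≤ ∑ _p ∈ ((Finset.univ : Finset (Bool × Bool)) ×ˢ
        Finset.Icc (-((r / t : ℕ) + 1 : ℤ)) ((r / t : ℕ) + 1)).filter
          (fun p => Flat (cand t r p) ρ₃ r), C1 * (θ * θ ^ (κ1 / 2)) := Finset.sum_le_sum h1
      _ ≤ ∑ _p ∈ (Finset.univ : Finset (Bool × Bool)) ×ˢ
        Finset.Icc (-((r / t : ℕ) + 1 : ℤ)) ((r / t : ℕ) + 1), C1 * (θ * θ ^ (κ1 / 2)) :=
          Finset.sum_le_sum_of_subset_of_nonneg (Finset.filter_subset _ _)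
            fun _ _ _ => by positivity
      _ = (4 * (2 * (r / t : ℕ) + 3) : ℝ) * (C1 * (θ * θ ^ (κ1 / 2))) := by
          rw [Finset.sum_const, Finset.card_product, Finset.card_univ, Int.card_Icc, nsmul_eq_mul]
          simp only [Fintype.card_prod, Fintype.card_bool]
          congr 1
          have : ((((r / t : ℕ) : ℤ) + 1) + 1 - -(((r / t : ℕ) : ℤ) + 1)).toNat =
            2 * (r / t) + 3 := by omega
          rw [this]
          push_cast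
          ring
      _ ≤ (20 * ((r : ℝ) / t)) * (C1 * (θ * θ ^ (κ1 / 2))) := by
          refine mul_le_mul_of_nonneg_right ?_ (by positivity)
          have h3 : ((r / t : ℕ) : ℝ) ≤ (r : ℝ) / t := Nat.cast_div_le
          have h4 : (1 : ℝ) ≤ (r : ℝ) / t := by
            rw [le_div_iff₀ ht0, one_mul]
            have : t ≤ r := by omega
            exact_mod_cast this
          linarith
      _ = 20 * C1 * (r / ρ) * θ ^ (κ1 / 2) := by
          rw [hθ]; field_simp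
      _ ≤ 20 * C1 * (r / ρ) * θ ^ κ := by
          refine mul_le_mul_of_nonneg_left ?_ (by positivity)
          exact Real.rpow_le_rpow_of_exponent_ge hθ0 hθ1 (min_le_left _ _)
  calc _ ≤ _ := hcov
    _ ≤ 80 * C2 * (r / ρ) * θ ^ κ + 20 * C1 * (r / ρ) * θ ^ κ := add_le_add hcor hfl
    _ ≤ (40 + 20 * C1 + 80 * C2) * (r / ρ) * θ ^ κ := by
        have : 0 ≤ 40 * ((r : ℝ) / ρ) * θ ^ κ := by positivity
        nlinarith

/-- The inner side. -/
theorem badIn : BadIn := by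
  intro c hc
  obtain ⟨C, κ, hC, hκ, h⟩ := bad_of_flat c hc
  refine ⟨C, κ, hC, hκ, fun n t ρ r q h1 h2 h3 h4 h5 => h n t ρ r q (ball 0 r) h1 h2 h3 h4 h5 ?_⟩
  intro z s ρ' hz
  rcases hz with ⟨hz1 | hz1, hz2⟩ | ⟨hz1 | hz1, hz2⟩
  · rw [locTwo_congr (D' := {v | v.2 ≤ z.2}), Pr_locTwo_down]
    intro v hv
    simp only [mem_ball, Prod.fst_zero, Prod.snd_zero, Set.mem_ofPred_eq] at hv ⊢
    rcases abs_cases z.1 with ⟨k1, k2⟩ | ⟨k1, k2⟩ <;> rw [k1] at hz2 <;> omega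
  · rw [locTwo_congr (D' := {v | z.2 ≤ v.2}), Pr_locTwo_up]
    intro v hv
    simp only [mem_ball, Prod.fst_zero, Prod.snd_zero, Set.mem_ofPred_eq] at hv ⊢
    rcases abs_cases z.1 with ⟨k1, k2⟩ | ⟨k1, k2⟩ <;> rw [k1] at hz2 <;> omega
  · rw [locTwo_congr (D' := {v | v.1 ≤ z.1}), Pr_locTwo_left]
    intro v hv
    simp only [mem_ball, Prod.fst_zero, Prod.snd_zero, Set.mem_ofPred_eq] at hv ⊢
    rcases abs_cases z.2 with ⟨k1, k2⟩ | ⟨k1, k2⟩ <;> rw [k1] at hz2 <;> omega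
  · rw [locTwo_congr (D' := {v | z.1 ≤ v.1}), Pr_locTwo_right]
    intro v hv
    simp only [mem_ball, Prod.fst_zero, Prod.snd_zero, Set.mem_ofPred_eq] at hv ⊢
    rcases abs_cases z.2 with ⟨k1, k2⟩ | ⟨k1, k2⟩ <;> rw [k1] at hz2 <;> omega

/-- The outer side. -/
theorem badOut : BadOut := by
  intro c hc
  obtain ⟨C, κ, hC, hκ, h⟩ := bad_of_flat c hc
  refine ⟨C, κ, hC, hκ, fun n t ρ r q h1 h2 h3 h4 h5 =>
    h n t ρ r q (ball 0 (r - 1))ᶜ h1 h2 h3 h4 h5 ?_⟩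
  intro z s ρ' hz
  have hr1 : 1 ≤ r := by omega
  have hcast : ((r - 1 : ℕ) : ℤ) = r - 1 := by omega
  rcases hz with ⟨hz1 | hz1, hz2⟩ | ⟨hz1 | hz1, hz2⟩
  · rw [locTwo_congr (D' := {v | z.2 ≤ v.2}), Pr_locTwo_up]
    intro v hv
    simp only [mem_ball, Prod.fst_zero, Prod.snd_zero, Set.mem_ofPred_eq, Set.mem_compl_iff,
      hcast] at hv ⊢
    rcases abs_cases z.1 with ⟨k1, k2⟩ | ⟨k1, k2⟩ <;> rw [k1] at hz2 <;> omega
  · rw [locTwo_congr (D' := {v | v.2 ≤ z.2}), Pr_locTwo_down]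
    intro v hv
    simp only [mem_ball, Prod.fst_zero, Prod.snd_zero, Set.mem_ofPred_eq, Set.mem_compl_iff,
      hcast] at hv ⊢
    rcases abs_cases z.1 with ⟨k1, k2⟩ | ⟨k1, k2⟩ <;> rw [k1] at hz2 <;> omega
  · rw [locTwo_congr (D' := {v | z.1 ≤ v.1}), Pr_locTwo_right]
    intro v hv
    simp only [mem_ball, Prod.fst_zero, Prod.snd_zero, Set.mem_ofPred_eq, Set.mem_compl_iff,
      hcast] at hv ⊢
    rcases abs_cases z.2 with ⟨k1, k2⟩ | ⟨k1, k2⟩ <;> rw [k1] at hz2 <;> omega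
  · rw [locTwo_congr (D' := {v | v.1 ≤ z.1}), Pr_locTwo_left]
    intro v hv
    simp only [mem_ball, Prod.fst_zero, Prod.snd_zero, Set.mem_ofPred_eq, Set.mem_compl_iff,
      hcast] at hv ⊢
    rcases abs_cases z.2 with ⟨k1, k2⟩ | ⟨k1, k2⟩ <;> rw [k1] at hz2 <;> omega

end Pool.Agent.H83.SK
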