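import Pool.Agent.H83.SK.P29.NoArm
import Pool.Agent.H26.HP.Frame

/-!
# Site percolation: exploration of clusters

`clus (sit w) D X` is the union of the clusters in `D` of the vertices of `X`; `Ucl w D X` is the
set of the sites which are needed to determine it. The sites off `Ucl w D X` are fresh.
-/

open MeasureTheory ProbabilityTheory unitInterval

namespace Pool.Agent.H83.SK

open Pool.Agent.H26.HP

open Pool.Agent.H89.Perc

variable {ω ω' : Config} {D X S U : Set Vert} {R : ℕ} {q : I}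

/-- Neighbours. -/
def Adj (a b : Vert) : Prop := ∃ e : Edge, Joins e a b

lemma Adj.symm {a b : Vert} (h : Adj a b) : Adj b a := by
  obtain ⟨e, ⟨h1, h2⟩ | ⟨h1, h2⟩⟩ := h
  · exact ⟨e, Or.inr ⟨h2, h1⟩⟩
  · exact ⟨e, Or.inl ⟨h2, h1⟩⟩

lemma step_adj {a b : Vert} (h : Step ω D a b) : Adj a b := by
  obtain ⟨_, _, e, h3, _⟩ := h
  exact ⟨e, h3⟩

/-- Steps in the induced configuration. -/
lemma step_sit {w : Config} {a b : Vert} : Step (sit w) D a b ↔
    a ∈ D ∧ b ∈ D ∧ Adj a b ∧ w (sv a) = true ∧ w (sv b) = true := by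
  constructor
  · rintro ⟨h1, h2, e, h3, h4⟩
    rw [sit_true] at h4
    refine ⟨h1, h2, ⟨e, h3⟩, ?_⟩
    rcases h3 with ⟨rfl, rfl⟩ | ⟨rfl, rfl⟩
    · exact h4
    · exact ⟨h4.2, h4.1⟩
  · rintro ⟨h1, h2, ⟨e, h3⟩, h4, h5⟩
    refine ⟨h1, h2, e, h3, ?_⟩
    rw [sit_true]
    rcases h3 with ⟨rfl, rfl⟩ | ⟨rfl, rfl⟩
    · exact ⟨h4, h5⟩
    · exact ⟨h5, h4⟩

lemma adj_ball {a b : Vert} (h : Adj a b) : b ∈ ball a 1 := by
  obtain ⟨⟨x, y, t⟩, ⟨h1, h2⟩ | ⟨h1, h2⟩⟩ := h <;>
    (subst h1; subst h2; cases t <;> simp only [mem_ball, src, tgt, if_true, if_false,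
      Bool.false_eq_true, Nat.cast_one] <;> omega)

/-- A vertex with an open edge is an open site. -/
lemma conn_sit_open {w : Config} {u v : Vert} (h : Conn (sit w) D u v) (hne : u ≠ v) :
    w (sv u) = true ∧ w (sv v) = true := by
  have h1 : ∀ a b : Vert, Conn (sit w) D a b → a ≠ b → w (sv b) = true := by
    intro a b hab
    refine hab.induction_right (P := fun x => a ≠ x → w (sv x) = true) (fun h => (h rfl).elim) ?_
    intro x y _ hxy _ _
    exact (step_sit.1 hxy).2.2.2.2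
  exact ⟨h1 v u h.symm hne.symm, h1 u v h hne⟩

/-- The sites which determine the clusters of `X`. -/
def Ucl (w : Config) (D X : Set Vert) : Set Vert :=
  {v | v ∈ clus (sit w) D X ∨
    (v ∈ D ∧ ∃ a ∈ clus (sit w) D X, w (sv a) = true ∧ Adj a v)}

lemma clus_subset_Ucl {w : Config} : clus (sit w) D X ⊆ Ucl w D X := fun _ h => Or.inl h

lemma Ucl_subset {w : Config} : Ucl w D X ⊆ D := by
  rintro v (h | h)
  · exact clus_subset h
  · exact h.1

/-- The sites of a set of vertices. -/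
noncomputable def siteF (R : ℕ) (U : Set Vert) : Finset Edge := by
  classical exact ((bF R).filter (fun v => v ∈ U)).image sv

lemma mem_siteF {g : Edge} : g ∈ siteF R U ↔ ∃ v, v ∈ ball 0 R ∧ v ∈ U ∧ sv v = g := by
  classical
  simp only [siteF, Finset.mem_image, Finset.mem_filter, mem_bF, and_assoc]

lemma sv_mem_siteF {v : Vert} (hv : v ∈ ball 0 R) (hU : v ∈ U) : sv v ∈ siteF R U :=
  mem_siteF.2 ⟨v, hv, hU, rfl⟩

/-- The clusters of `X` and the determining sites are prescribed. -/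
def FullU (D X S U : Set Vert) : Set Config := {w | clus (sit w) D X = S ∧ Ucl w D X = U}

lemma localOn_fullU (hD : D ⊆ ball 0 R) : LocalOn (siteF R U) (FullU D X S U) := by
  rintro w w' h ⟨h1, h2⟩
  have hSU : S ⊆ U := by rw [← h1, ← h2]; exact clus_subset_Ucl
  have hUD : U ⊆ D := by rw [← h2]; exact Ucl_subset
  have hw : ∀ v ∈ U, w (sv v) = w' (sv v) := fun v hv => h _ (sv_mem_siteF (hD (hUD hv)) hv)
  have hnb : ∀ a ∈ S, w (sv a) = true → ∀ b ∈ D, Adj a b → b ∈ U := by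
    intro a ha hwa b hb hab
    rw [← h2]
    exact Or.inr ⟨hb, a, h1 ▸ ha, hwa, hab⟩
  have h3 : clus (sit w') D X = S := by
    ext v
    constructor
    · rintro ⟨x, hx, hc⟩
      refine hc.induction_right (P := fun y => y ∈ S) ?_ ?_
      · rw [← h1]; exact ⟨x, hx, Conn.refl hc.mem_left⟩
      · intro a b _ hab ha
        rw [step_sit] at hab
        obtain ⟨k1, k2, k3, k4, k5⟩ := hab
        have k6 : w (sv a) = true := by rw [hw a (hSU ha)]; exact k4
        have k7 : b ∈ U := hnb a ha k6 b k2 k3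
        have k8 : w (sv b) = true := by rw [hw b k7]; exact k5
        rw [← h1] at ha ⊢
        exact mem_clus_of_conn ha (step_sit.2 ⟨k1, k2, k3, k6, k8⟩ : Step (sit w) D a b).conn
    · intro hv
      rw [← h1] at hv
      obtain ⟨x, hx, hc⟩ := hv
      refine ⟨x, hx, ?_⟩
      refine hc.induction_right (P := fun y => Conn (sit w') D x y) (Conn.refl hc.mem_left) ?_
      intro a b ha hab ih
      have haS : a ∈ S := by rw [← h1]; exact ⟨x, hx, ha⟩
      have hbS : b ∈ S := by rw [← h1]; exact ⟨x, hx, ha.tail hab⟩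
      rw [step_sit] at hab
      obtain ⟨k1, k2, k3, k4, k5⟩ := hab
      exact ih.tail (step_sit.2 ⟨k1, k2, k3, by rw [← hw a (hSU haS)]; exact k4,
        by rw [← hw b (hSU hbS)]; exact k5⟩)
  refine ⟨h3, ?_⟩
  rw [← h2]
  ext v
  simp only [Ucl, Set.mem_ofPred_eq, h1, h3]
  constructor
  · rintro (k | ⟨k1, a, k2, k3, k4⟩)
    · exact Or.inl k
    · exact Or.inr ⟨k1, a, k2, by rw [hw a (hSU k2)]; exact k3, k4⟩
  · rintro (k | ⟨k1, a, k2, k3, k4⟩)
    · exact Or.inl k
    · exact Or.inr ⟨k1, a, k2, by rw [← hw a (hSU k2)]; exact k3, k4⟩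

lemma siteF_disjoint (D U : Set Vert) : Disjoint (siteF R U) (hull (eIn R (D \ U))) := by
  rw [Finset.disjoint_left]
  intro g h1 h2
  rw [mem_siteF] at h1
  rw [mem_hull] at h2
  obtain ⟨v, _, hvU, rfl⟩ := h1
  obtain ⟨e, he, h⟩ := h2
  rw [mem_eIn] at he
  rcases h with h | h
  · exact he.2.1.2 (sv_injective h ▸ hvU)
  · exact he.2.2.2 (sv_injective h ▸ hvU)

/-- A path which starts outside of the explored set stays off the determining sites. -/
lemma conn_offU {w : Config} {u v : Vert} (hu : u ∉ clus (sit w) D X) (hne : u ≠ v)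
    (h : Conn (sit w) D u v) : Conn (sit w) (D \ Ucl w D X) u v := by
  have hkey : ∀ a : Vert, Conn (sit w) D u a → w (sv a) = true → a ∈ D \ Ucl w D X := by
    intro a ha hwa
    refine ⟨ha.mem_right, ?_⟩
    rintro (k | ⟨_, b, k1, k2, k3⟩)
    · exact hu (mem_clus_of_conn k ha.symm)
    · have hb := clus_subset k1
      have : Step (sit w) D b a := step_sit.2 ⟨hb, ha.mem_right, k3, k2, hwa⟩
      exact hu (mem_clus_of_conn (mem_clus_of_conn k1 this.conn) ha.symm)
  have hu0 : u ∈ D \ Ucl w D X := hkey u (Conn.refl h.mem_left) (conn_sit_open h hne).1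
  refine h.induction_right (P := fun x => Conn (sit w) (D \ Ucl w D X) u x)
    (Conn.refl hu0) ?_
  intro a b ha hab ih
  have hb := step_sit.1 hab
  exact ih.tail (step_sit.2 ⟨ih.mem_right, hkey b (ha.tail hab) hb.2.2.2.2, hb.2.2⟩)

/-- Probability of a disjoint union of local events, disjoint for site configurations. -/
theorem Pr_biUnion' {ι : Type*} (F : Finset ι) (A : ι → Set Config)
    (t : ι → Finset Edge) (hA : ∀ i ∈ F, LocalOn (t i) (A i))
    (hd : ∀ i ∈ F, ∀ j ∈ F, ∀ w : Config, sit w ∈ A i → sit w ∈ A j → i = j) :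
    Pr q (⋃ i ∈ F, A i) = ∑ i ∈ F, Pr q (A i) := by
  unfold Pr
  have h : {ω | sit ω ∈ ⋃ i ∈ F, A i} = ⋃ i ∈ F, {ω | sit ω ∈ A i} := by
    ext ω
    simp
  rw [h]
  refine measureReal_biUnion_finset (fun i hi j hj hij => ?_)
    (fun i hi => (localOn_sit (hA i hi)).measurableSet)
  rw [Function.onFun, Set.disjoint_left]
  intro ω h1 h2
  exact hij (hd i hi j hj ω h1 h2)

/-- **Exploration.**  Given the cluster `S` of `X` and the determining set `U`, the events `A' S U`
and `G S U` only depend on fresh sites; if `c P(A' S U) ≤ P(G S U)` for all `S`, `U`, then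
`c P(A) ≤ P(B)`. -/
theorem explore (hD : D ⊆ ball 0 R) {A B : Set Config} {A' G : Set Vert → Set Vert → Set Config}
    {c : ℝ} (hc0 : 0 ≤ c)
    (hA : ∀ w, sit w ∈ A → sit w ∈ A' (clus (sit w) D X) (Ucl w D X))
    (lA : ∀ S U, LocalOn (eIn R (D \ U)) (A' S U)) (lG : ∀ S U, LocalOn (eIn R (D \ U)) (G S U))
    (hc : ∀ S U, (∀ v ∈ U, v ∈ S ∨ ∃ a ∈ S, Adj a v) → c * Pr q (A' S U) ≤ Pr q (G S U))
    (hB : ∀ w, sit w ∈ G (clus (sit w) D X) (Ucl w D X) → sit w ∈ B) :
    c * Pr q A ≤ Pr q B := by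
  classical
  set P : Finset (Finset Vert × Finset Vert) := (bF R).powerset ×ˢ (bF R).powerset with hP
  have h1 : Pr q A ≤ ∑ T ∈ P, Pool.Agent.H89.Perc.Pr q
      (FullU D X T.1 T.2 ∩ {w | sit w ∈ A' T.1 T.2}) := by
    refine (Pool.Agent.H89.Perc.Pr_mono ?_).trans (Pool.Agent.H89.Perc.Pr_biUnion_le _ _)
    intro w hw
    obtain ⟨T, hT, hTe⟩ := exists_finset (S := clus (sit w) D X) (clus_subset.trans hD)
    obtain ⟨V, hV, hVe⟩ := exists_finset (S := Ucl w D X) (Ucl_subset.trans hD)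
    simp only [Set.mem_iUnion]
    refine ⟨(T, V), Finset.mem_product.2 ⟨hT, hV⟩, ⟨hTe.symm, hVe.symm⟩, ?_⟩
    show sit w ∈ A' ↑T ↑V
    rw [hTe, hVe]
    exact hA w hw
  have h2 : ∑ T ∈ P, Pool.Agent.H89.Perc.Pr q (FullU D X T.1 T.2 ∩ {w | sit w ∈ G T.1 T.2}) ≤
      Pr q B := by
    have hd : Set.PairwiseDisjoint (↑P) (fun T : Finset Vert × Finset Vert =>
        FullU D X T.1 T.2 ∩ {w | sit w ∈ G T.1 T.2}) := by
      intro T1 _ T2 _ hne
      rw [Function.onFun, Set.disjoint_left]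
      rintro ω ⟨⟨k1, k1'⟩, _⟩ ⟨⟨k2, k2'⟩, _⟩
      apply hne
      have k3 : (↑T1.1 : Set Vert) = ↑T2.1 := by rw [← k1, ← k2]
      have k4 : (↑T1.2 : Set Vert) = ↑T2.2 := by rw [← k1', ← k2']
      exact Prod.ext (by exact_mod_cast k3) (by exact_mod_cast k4)
    have hm : ∀ T ∈ P, MeasurableSet (FullU D X (↑T.1 : Set Vert) ↑T.2 ∩
        {w | sit w ∈ G T.1 T.2}) :=
      fun T _ => ((localOn_fullU hD).inter' (localOn_sit (lG T.1 T.2))).measurableSet
    have := measureReal_biUnion_finset (μ := μ q) hd hm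
    unfold Pool.Agent.H89.Perc.Pr
    rw [← this]
    refine measureReal_mono ?_
    intro w hw
    simp only [Set.mem_iUnion] at hw
    obtain ⟨T, _, ⟨k1, k1'⟩, k2⟩ := hw
    show sit w ∈ B
    apply hB
    rw [k1, k1']
    exact k2
  calc c * Pr q A ≤ c * ∑ T ∈ P, Pool.Agent.H89.Perc.Pr q
        (FullU D X T.1 T.2 ∩ {w | sit w ∈ A' T.1 T.2}) := mul_le_mul_of_nonneg_left h1 hc0
    _ = ∑ T ∈ P, c * Pool.Agent.H89.Perc.Pr q
        (FullU D X T.1 T.2 ∩ {w | sit w ∈ A' T.1 T.2}) := Finset.mul_sum _ _ _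
    _ ≤ ∑ T ∈ P, Pool.Agent.H89.Perc.Pr q (FullU D X T.1 T.2 ∩ {w | sit w ∈ G T.1 T.2}) := by
        refine Finset.sum_le_sum fun T _ => ?_
        by_cases hT : ∀ v ∈ (↑T.2 : Set Vert), v ∈ (↑T.1 : Set Vert) ∨
            ∃ a ∈ (↑T.1 : Set Vert), Adj a v
        · rw [Pool.Agent.H89.Perc.Pr_inter_of_disjoint (localOn_fullU hD)
            (localOn_sit (lA T.1 T.2)) (siteF_disjoint _ _),
            Pool.Agent.H89.Perc.Pr_inter_of_disjoint (localOn_fullU hD)
            (localOn_sit (lG T.1 T.2)) (siteF_disjoint _ _)]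
          have h3 := hc T.1 T.2 hT
          unfold Pr at h3
          calc c * (Pool.Agent.H89.Perc.Pr q (FullU D X T.1 T.2) *
                Pool.Agent.H89.Perc.Pr q {w | sit w ∈ A' T.1 T.2})
              = Pool.Agent.H89.Perc.Pr q (FullU D X T.1 T.2) *
                (c * Pool.Agent.H89.Perc.Pr q {w | sit w ∈ A' T.1 T.2}) := by ring
            _ ≤ _ := mul_le_mul_of_nonneg_left h3 Pool.Agent.H89.Perc.Pr_nonneg
        · have e1 : FullU D X (↑T.1 : Set Vert) ↑T.2 = ∅ := by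
            ext w
            simp only [Set.mem_empty_iff_false, iff_false]
            rintro ⟨k1, k2⟩
            apply hT
            intro v hv
            rw [← k2] at hv
            rw [← k1]
            rcases hv with k | ⟨_, a, k3, _, k4⟩
            · exact Or.inl k
            · exact Or.inr ⟨a, k3, k4⟩
          rw [e1, Set.empty_inter, Set.empty_inter]
          simp [Pool.Agent.H89.Perc.Pr]
    _ ≤ Pr q B := h2

/-- The closed neighbourhood in `D`. -/
def nb (D S : Set Vert) : Set Vert := {v | v ∈ S ∨ (v ∈ D ∧ ∃ a ∈ S, Adj a v)}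

lemma hull_eTouch_disjoint (D S : Set Vert) :
    Disjoint (hull (eTouch R D S)) (hull (eIn R (D \ nb D S))) := by
  refine disj_hull_of (S := nb D S) ?_ ?_
  · intro e he
    rw [mem_eTouch] at he
    obtain ⟨_, ⟨h1, h2⟩, h3 | h3⟩ := he
    · exact ⟨Or.inl h3, Or.inr ⟨h2, src e, h3, e, Or.inl ⟨rfl, rfl⟩⟩⟩
    · exact ⟨Or.inr ⟨h1, tgt e, h3, e, Or.inr ⟨rfl, rfl⟩⟩, Or.inl h3⟩
  · intro e he
    rw [mem_eIn] at he
    exact ⟨he.2.1.2, he.2.2.2⟩

/-- The sites of a nontrivial cluster are open, a path off the cluster stays off the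
neighbourhood. -/
lemma isClus_offU {w : Config} (h : sit w ∈ IsClus D S) {a b : Vert} (ha : a ∈ S) (hb : b ∈ S)
    (hab : a ≠ b) {u v : Vert} (hu : u ∉ S) (hne : u ≠ v) (hc : Conn (sit w) D u v) :
    Conn (sit w) (D \ nb D S) u v := by
  have hop : ∀ x ∈ S, w (sv x) = true := by
    intro x hx
    by_cases hxa : x = a
    · subst hxa
      exact (conn_sit_open (isClus_conn h hx hb) hab).1
    · exact (conn_sit_open (isClus_conn h hx ha) hxa).1
  have hkey : ∀ x : Vert, Conn (sit w) D u x → w (sv x) = true → x ∈ D \ nb D S := by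
    intro x hx hwx
    refine ⟨hx.mem_right, ?_⟩
    rintro (k | ⟨_, y, k1, k3⟩)
    · exact hu (isClus_closed h k hx.symm)
    · have hy := isClus_subset h k1
      have : Step (sit w) D y x := step_sit.2 ⟨hy, hx.mem_right, k3, hop y k1, hwx⟩
      exact hu (isClus_closed h (isClus_closed h k1 this.conn) hx.symm)
  have hu0 : u ∈ D \ nb D S := hkey u (Conn.refl hc.mem_left) (conn_sit_open hc hne).1
  refine hc.induction_right (P := fun x => Conn (sit w) (D \ nb D S) u x) (Conn.refl hu0) ?_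
  intro x y hx hxy ih
  have hb := step_sit.1 hxy
  exact ih.tail (step_sit.2 ⟨ih.mem_right, hkey y (hx.tail hxy) hb.2.2.2.2, hb.2.2⟩)

/-- The expected number of clusters of `D` in the family `F`. -/
noncomputable def EN (q : I) (D : Set Vert) (F : Finset (Finset Vert)) : ℝ :=
  ∑ T ∈ F, Pr q (IsClus D T)

/-- If each cluster of the family is alone with probability at least `c`, then the expected number
of clusters is at most `c⁻¹ P(B)`. -/
theorem EN_le (hD : D ⊆ ball 0 R) {F : Finset (Finset Vert)} {B : Set Config}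
    {G : Set Vert → Set Config} {c : ℝ} (lG : ∀ S, LocalOn (eIn R (D \ nb D S)) (G S))
    (hc : ∀ T ∈ F, c ≤ Pr q (G T))
    (hu : ∀ w, ∀ T ∈ F, ∀ T' ∈ F, sit w ∈ IsClus D T → sit w ∈ G T → sit w ∈ IsClus D T' →
      sit w ∈ G T' → T = T')
    (hB : ∀ w, ∀ T ∈ F, sit w ∈ IsClus D T → sit w ∈ G T → sit w ∈ B) :
    c * EN q D F ≤ Pr q B := by
  classical
  have h2 : ∑ T ∈ F, Pr q (IsClus D T ∩ G T) ≤ Pr q B := by
    have := Pr_biUnion' (q := q) F (fun T : Finset Vert => IsClus D (↑T : Set Vert) ∩ G T)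
      (fun T => eTouch R D ↑T ∪ eIn R (D \ nb D ↑T))
      (fun T _ => (localOn_isClus hD).inter' (lG T))
      (fun T1 hT1 T2 hT2 w h1 h2 => hu w T1 hT1 T2 hT2 h1.1 h1.2 h2.1 h2.2)
    rw [← this]
    unfold Pr
    refine Pool.Agent.H89.Perc.Pr_mono ?_
    intro w hw
    simp only [Set.mem_ofPred_eq, Set.mem_iUnion] at hw
    obtain ⟨T, hT, k1, k2⟩ := hw
    exact hB w T hT k1 k2
  refine le_trans ?_ h2
  rw [EN, Finset.mul_sum]
  refine Finset.sum_le_sum fun T hT => ?_
  rw [Pr_inter_of_disjoint (localOn_isClus hD) (lG T) (hull_eTouch_disjoint _ _), mul_comm]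
  exact mul_le_mul_of_nonneg_left (hc T hT) Pr_nonneg

/-- Upper bound by the expected number of clusters times the conditional probability of the rest. -/
theorem le_EN (hD : D ⊆ ball 0 R) {F : Finset (Finset Vert)} {A : Set Config}
    {G : Set Vert → Set Config} {δ : ℝ} (lG : ∀ S, LocalOn (eIn R (D \ nb D S)) (G S))
    (hδ : ∀ T ∈ F, Pr q (G T) ≤ δ)
    (hA : ∀ w, sit w ∈ A → ∃ T ∈ F, sit w ∈ IsClus D T ∧ sit w ∈ G T) :
    Pr q A ≤ EN q D F * δ := by
  classical
  calc Pr q A ≤ Pr q (⋃ T ∈ F, (IsClus D (↑T : Set Vert) ∩ G T)) := by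
        unfold Pr
        refine Pool.Agent.H89.Perc.Pr_mono fun w hw => ?_
        simp only [Set.mem_ofPred_eq, Set.mem_iUnion]
        obtain ⟨T, hT, h1, h2⟩ := hA w hw
        exact ⟨T, hT, h1, h2⟩
    _ ≤ ∑ T ∈ F, Pr q (IsClus D (↑T : Set Vert) ∩ G T) := Pr_biUnion_le _ _
    _ ≤ ∑ T ∈ F, Pr q (IsClus D (↑T : Set Vert)) * δ := by
        refine Finset.sum_le_sum fun T hT => ?_
        rw [Pr_inter_of_disjoint (localOn_isClus hD) (lG T) (hull_eTouch_disjoint _ _)]
        exact mul_le_mul_of_nonneg_left (hδ T hT) Pr_nonneg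
    _ = EN q D F * δ := by rw [EN, Finset.sum_mul]

end Pool.Agent.H83.SK
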